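import Mathlib
import Pool.Agent.Hlawka.Defs
import Pool.Agent.Hlawka.LimFin

/-!
# The growth of the Hlawka-type constants `C_p` of the Schatten norms as `p → ∞`
-/

namespace Pool.Agent.Results.MP_1619cf_an.LimitAtInfinity

open Pool.Agent.Hlawka Filter Topology
open scoped ENNReal

/-- `C_p / p → 1 / (3 log 2)` as `p → ∞`. -/
theorem result :
    Tendsto (fun p : ℝ => hlawkaConst p / ENNReal.ofReal p) atTop
      (𝓝 (ENNReal.ofReal (1 / (3 * Real.log 2)))) :=
  tendsto_hlawkaConst_div

end Pool.Agent.Results.MP_1619cf_an.LimitAtInfinity
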