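import Mathlib
import Pool.Agent.Hlawka.Defs
import Pool.Agent.Hlawka.LowerLog

/-!
# The blow-up of the Hlawka-type constants `C_p` of the Schatten norms as `p` decreases to `1`
-/

namespace Pool.Agent.Results.MP_1619cf_an.NearOneRate

open Pool.Agent.Hlawka
open scoped ENNReal

/-- For `1 < p ≤ 2` one has `C_p ≥ 1 / (6 (p-1) (1 + log (1/(p-1))))`. -/
theorem result (p : ℝ) (hp : 1 < p) (hp2 : p ≤ 2) :
    ENNReal.ofReal (1 / (6 * (p - 1) * (1 + Real.log (1 / (p - 1))))) ≤ hlawkaConst p :=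
  lower_log hp hp2

end Pool.Agent.Results.MP_1619cf_an.NearOneRate
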