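import Mathlib
import Pool.Agent.Hlawka.Defs
import Pool.Agent.Hlawka.Dilation
import Pool.Agent.Hlawka.TraceNorm
import Pool.Agent.Hlawka.Lower

/-!
# The Hlawka-type constants `C_p` of the Schatten norms: `C_p < ∞` exactly for `1 < p < ∞`
-/

namespace Pool.Agent.Results.MP_1619cf_an.TwoSidedBounds

open Pool.Agent.Hlawka
open scoped ENNReal

/-- `C_1 = ∞`, and `C_p` is finite for every `1 < p < ∞`, with two-sided bounds: it is of order
`p` for `p ≥ 2`, and lies between constant multiples of `(p-1)^{-1/2}` and `(p-1)^{-1}` for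
`1 < p ≤ 2`. -/
theorem result :
    hlawkaConst 1 = ⊤ ∧
    (∀ p : ℝ, 1 < p → p ≤ 2 →
      ENNReal.ofReal (1 / (96 * Real.sqrt (p - 1))) ≤ hlawkaConst p ∧
        hlawkaConst p ≤ ENNReal.ofReal (16 / (p - 1))) ∧
    (∀ p : ℝ, 2 ≤ p →
      ENNReal.ofReal (p / 12) ≤ hlawkaConst p ∧ hlawkaConst p ≤ ENNReal.ofReal (8 * p)) := by
  refine ⟨hlawkaConst_one, fun p hp hp2 => ⟨lower_small hp hp2, ?_⟩,
    fun p hp => ⟨lower_large hp, ?_⟩⟩
  · refine (hlawkaConst_le hp).trans (ENNReal.ofReal_le_ofReal ?_)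
    rw [min_eq_right (by linarith)]
    have : 0 < p - 1 := by linarith
    gcongr
    linarith
  · refine (hlawkaConst_le (by linarith)).trans (ENNReal.ofReal_le_ofReal ?_)
    rw [min_eq_left (by linarith)]
    linarith

end Pool.Agent.Results.MP_1619cf_an.TwoSidedBounds
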